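import Pool.Agent.H12.Sub2

/-! Removable value sets for subharmonicity of `C^{1,ω}` functions (both questions). -/

open Metric Set MeasureTheory

namespace Pool.Agent.Results.MP_c751e8_an.Removable

/-- Subharmonic on `G`: upper semicontinuous, and dominated inside every closed disc in `G` by each
function continuous on the disc, harmonic inside, that dominates it on the boundary circle. -/
def Subharm (G : Set ℂ) (f : ℂ → ℝ) : Prop :=
  UpperSemicontinuousOn f G ∧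
  ∀ (c : ℂ) (R : ℝ) (h : ℂ → ℝ), 0 < R → closedBall c R ⊆ G → ContinuousOn h (closedBall c R) →
    InnerProductSpace.HarmonicOnNhd h (ball c R) → (∀ z ∈ sphere c R, f z ≤ h z) →
    ∀ z ∈ closedBall c R, f z ≤ h z

/-- `|g u - g v| ≤ C ω(|u - v|)` for `u ≠ v` in `K` with `|u - v| < δ`. -/
def Bd (ω : ℝ → ℝ) (g : ℂ → ℝ) (K : Set ℂ) (C δ : ℝ) : Prop :=
  ∀ u ∈ K, ∀ v ∈ K, u ≠ v → ‖u - v‖ < δ → |g u - g v| ≤ C * ω ‖u - v‖

/-- The class `C^ω(G)`. -/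
def BigO (ω : ℝ → ℝ) (G : Set ℂ) (g : ℂ → ℝ) : Prop :=
  ∀ K ⊆ G, IsCompact K → ∃ C δ : ℝ, 0 < δ ∧ Bd ω g K C δ

/-- The class `C^ω_*(G)`. -/
def LittleO (ω : ℝ → ℝ) (G : Set ℂ) (g : ℂ → ℝ) : Prop :=
  ∀ K ⊆ G, IsCompact K → ∀ ε : ℝ, 0 < ε → ∃ δ : ℝ, 0 < δ ∧ Bd ω g K ε δ

/-- `C^1` functions on `G` both of whose first-order coordinate derivatives lie in the class `P`. -/
def COne (P : Set ℂ → (ℂ → ℝ) → Prop) (G : Set ℂ) (f : ℂ → ℝ) : Prop :=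
  ContDiffOn ℝ 1 f G ∧ P G (fun u => fderiv ℝ f u 1) ∧ P G (fun u => fderiv ℝ f u Complex.I)

/-- The Hausdorff measure on `ℝ` with measure function `ω`. -/
noncomputable def Lam (ω : ℝ → ℝ) : Measure ℝ :=
  Measure.mkMetric fun d : ENNReal => ENNReal.ofReal (ω d.toReal)

/-- `E` is negligible `(K, S)`. -/
def Negligible (K : Set ℂ → (ℂ → ℝ) → Prop) (E : Set ℝ) : Prop :=
  ∀ G : Set ℂ, IsOpen G → ∀ f : ℂ → ℝ, K G f → ∀ V : Set ℂ, IsOpen V → V ⊆ G → Subharm V f →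
    (∀ z ∈ G \ V, f z ∈ E) → Subharm G f

open Pool.Agent.H12.Sub

lemma opn (L : ℂ →L[ℝ] ℝ) : ‖L‖ ≤ |L 1| + |L Complex.I| := by
  refine L.opNorm_le_bound (by positivity) fun z => ?_
  have h2 : L z = z.re * L 1 + z.im * L Complex.I := by
    conv_lhs => rw [show z = z.re • (1 : ℂ) + z.im • Complex.I by apply Complex.ext <;> simp]
    rw [map_add, map_smul, map_smul, smul_eq_mul, smul_eq_mul]
  rw [h2, Real.norm_eq_abs]
  refine (abs_add_le _ _).trans ?_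
  rw [abs_mul, abs_mul]
  nlinarith [Complex.abs_re_le_norm z, Complex.abs_im_le_norm z, abs_nonneg (L 1),
    abs_nonneg (L Complex.I)]

lemma bd_le {ω : ℝ → ℝ} (hm : MonotoneOn ω (Ici 0)) (hp : ∀ t, 0 < t → 0 < ω t) {g : ℂ → ℝ}
    {K : Set ℂ} {C C' δ t : ℝ} (h : Bd ω g K C δ) (hC : C ≤ C') (hC' : 0 < C') (ht : 0 < t)
    (htδ : t < δ) {u v : ℂ} (hu : u ∈ K) (hv : v ∈ K) (huv : ‖u - v‖ ≤ t) :
    |g u - g v| ≤ C' * ω t := by
  have h0 := hp t ht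
  rcases eq_or_ne u v with rfl | hne
  · rw [sub_self, abs_zero]; positivity
  have h1 := hp _ (norm_pos_iff.2 (sub_ne_zero.2 hne))
  exact (h u hu v hv hne (huv.trans_lt htδ)).trans ((mul_le_mul_of_nonneg_right hC h1.le).trans
    (mul_le_mul_of_nonneg_left (hm (norm_nonneg _) ht.le huv) hC'.le))

lemma core {ω : ℝ → ℝ} (hc : ContinuousOn ω (Ici 0)) (hm : MonotoneOn ω (Ici 0))
    (hp : ∀ t, 0 < t → 0 < ω t) {G V : Set ℂ} {f : ℂ → ℝ} (hG : IsOpen G) (hV : IsOpen V)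
    (hf : ContDiffOn ℝ 1 f G) (hs : Subharm V f) (hn : ¬ Subharm G f) :
    ∃ (B : Set ℂ) (I : Set ℝ) (K : ℝ) (p : ℝ → ℂ), IsCompact B ∧ B ⊆ G ∧ volume I ≠ 0 ∧ 0 < K ∧
      (∀ a ∈ I, p a ∈ G \ V) ∧ ∀ C C1 C2 δ1 δ2 : ℝ, 0 < C → C1 ≤ C → C2 ≤ C → 0 < δ1 → 0 < δ2 →
        Bd ω (fun u => fderiv ℝ f u 1) B C1 δ1 → Bd ω (fun u => fderiv ℝ f u Complex.I) B C2 δ2 →
        ∀ A, volume (I ∩ (fun a => f (p a)) ⁻¹' A) ≤ ENNReal.ofReal (K * C) * Lam ω A := by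
  have hd := hf.differentiableOn one_ne_zero
  obtain ⟨x0, hx0, ht0⟩ := exists_touch hf.continuousOn
    fun h => hn ⟨hf.continuousOn.upperSemicontinuousOn, h⟩
  obtain ⟨x1, hx1, ht1, hne⟩ := exists_touch_ne hG hd hx0 ht0
  obtain ⟨B, s, K, t1, p, hB, hBG, hs0, hK, ht, hpV, hmain⟩ := key hG hV hf hs.2 hx1 ht1 hne
  refine ⟨B, Icc (1 - s) (1 + s), 2 * K, p, hB, hBG, ?_, by positivity, hpV,
    fun C C1 C2 δ1 δ2 hC h1 h2 d1 d2 b1 b2 A => ?_⟩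
  · rw [Real.volume_Icc]; exact (ENNReal.ofReal_pos.2 (by linarith)).ne'
  refine cover hc (by positivity) (t0 := min t1 (min δ1 δ2)) (by positivity)
    (fun a ha b hb t t0 tl hab => ?_) A
  simp only [lt_min_iff] at tl
  refine (hmain a ha b hb t (2 * C * ω t) t0 tl.1.le hab fun y hy z hz hyz => ?_).trans
    (le_of_eq (by ring))
  have e1 := bd_le hm hp b1 h1 hC t0 tl.2.1 hy hz hyz
  have e2 := bd_le hm hp b2 h2 hC t0 tl.2.2 hy hz hyz
  refine (opn _).trans ?_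
  simp only [_root_.sub_apply]
  linarith

theorem result (ω : ℝ → ℝ) (hc : ContinuousOn ω (Ici 0)) (hm : MonotoneOn ω (Ici 0))
    (hp : ∀ t, 0 < t → 0 < ω t) :
    (∀ E : Set ℝ, Lam ω E = 0 → Negligible (COne (BigO ω)) E) ∧
    (∀ E : Set ℝ, (∃ A : ℕ → Set ℝ, E ⊆ ⋃ n, A n ∧ ∀ n, Lam ω (A n) < ⊤) →
      Negligible (COne (LittleO ω)) E) := by
  constructor
  · intro E hE G hG f hf V hV _ hs hfE
    by_contra hn
    obtain ⟨B, I, K, p, hB, hBG, hI, hK, hpV, h⟩ := core hc hm hp hG hV hf.1 hs hn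
    obtain ⟨C1, δ1, d1, b1⟩ := hf.2.1 B hBG hB
    obtain ⟨C2, δ2, d2, b2⟩ := hf.2.2 B hBG hB
    have := h (max 1 (max C1 C2)) C1 C2 δ1 δ2 (by positivity)
      ((le_max_left _ _).trans (le_max_right _ _)) ((le_max_right _ _).trans (le_max_right _ _))
      d1 d2 b1 b2 E
    rw [hE, mul_zero] at this
    exact hI (measure_mono_null (fun a ha => mem_inter ha (hfE _ (hpV a ha))) (le_zero_iff.1 this))
  · rintro E ⟨A, hEA, hA⟩ G hG f hf V hV _ hs hfE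
    by_contra hn
    obtain ⟨B, I, K, p, hB, hBG, hI, hK, hpV, h⟩ := core hc hm hp hG hV hf.1 hs hn
    refine hI (measure_mono_null (t := ⋃ n, I ∩ (fun a => f (p a)) ⁻¹' A n) (fun a ha => ?_)
      (measure_iUnion_null fun n => ?_))
    · obtain ⟨n, hn⟩ := mem_iUnion.1 (hEA (hfE _ (hpV a ha)))
      exact mem_iUnion.2 ⟨n, ha, hn⟩
    refine le_zero_iff.1 (ENNReal.le_of_forall_pos_le_add fun ε hε _ => ?_)
    set m := (Lam ω (A n)).toReal with hmm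
    have hm0 : 0 ≤ m := ENNReal.toReal_nonneg
    have hC : 0 < (ε : ℝ) / (K * (m + 1)) := by positivity
    obtain ⟨δ1, d1, b1⟩ := hf.2.1 B hBG hB _ hC
    obtain ⟨δ2, d2, b2⟩ := hf.2.2 B hBG hB _ hC
    refine (h _ _ _ δ1 δ2 hC le_rfl le_rfl d1 d2 b1 b2 (A n)).trans ?_
    rw [zero_add, ← ENNReal.ofReal_toReal (hA n).ne, ← ENNReal.ofReal_mul (by positivity),
      ← ENNReal.ofReal_coe_nnreal, ← hmm]
    refine ENNReal.ofReal_le_ofReal ?_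
    rw [show K * ((ε : ℝ) / (K * (m + 1))) * m = ε * (m / (m + 1)) by field_simp]
    exact mul_le_of_le_one_right ε.2 ((div_le_one (by positivity)).2 (by linarith))

end Pool.Agent.Results.MP_c751e8_an.Removable
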